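import Pool.Graph.R_pool_sql_team_seeded_620a6dc7.H578.Gen.BoxG

/-!
# A quadratic polynomial in a short interval: values with a very large prime factor
-/

set_option autoImplicit false

namespace Pool.Agent.H543.PF

open Finset Filter Topology Polynomial
open Pool.Agent.Y346.PA
open Pool.Agent.Y882.SI (QF QF_eval QF_irred ro_quad_le)
open Pool.Agent.Y882.PX (ro ro_eq ro_prod ro_le_self cnt rr cnt_le)
open Pool.Agent.H474R2.PG (PR Sg)
open scoped Classical

/-- the polynomial -/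
noncomputable def FP (α β γ : ℤ) : ℤ[X] := C α * X ^ 2 + C β * X + C γ

theorem FP_eval (α β γ n : ℤ) : (FP α β γ).eval n = α * n ^ 2 + β * n + γ := by
  unfold FP
  simp

theorem card_range_zmod1 (p : ℕ) [NeZero p] (P : ZMod p → Prop) (Q : ℕ → Prop)
    [DecidablePred P] [DecidablePred Q] (h : ∀ n : ℕ, Q n ↔ P n) : ((range p).filter Q).card = (univ.filter P).card := by
  apply card_bij' (i := fun (n : ℕ) _ => (n : ZMod p)) (j := fun (x : ZMod p) _ => x.val)
  · intro n hn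
    rw [mem_filter] at hn ⊢
    exact ⟨mem_univ _, (h n).1 hn.2⟩
  · intro x hx
    rw [mem_filter] at hx ⊢
    refine ⟨mem_range.2 (ZMod.val_lt x), (h _).2 ?_⟩
    rw [ZMod.natCast_zmod_val]
    exact hx.2
  · intro n hn
    rw [mem_filter, mem_range] at hn
    exact ZMod.val_cast_of_lt hn.1
  · intro x _
    exact ZMod.natCast_zmod_val x

theorem ro_FP (α β γ : ℤ) (p : ℕ) (hp : p.Prime) (h : ¬ (p : ℤ) ∣ 2 * α) :
    ro (FP α β γ) 0 p = ro (QF (4 * α * γ - β ^ 2)) 0 p := by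
  have : Fact p.Prime := ⟨hp⟩
  have h2α : ((2 * α : ℤ) : ZMod p) ≠ 0 := by
    rw [Ne, ZMod.intCast_zmod_eq_zero_iff_dvd]
    exact h
  push_cast at h2α
  have hα : (α : ZMod p) ≠ 0 := right_ne_zero_of_mul h2α
  have h2 : (2 : ZMod p) ≠ 0 := left_ne_zero_of_mul h2α
  rw [ro_eq, ro_eq,
    card_range_zmod1 p (fun x : ZMod p => (α : ZMod p) * x ^ 2 + β * x + γ = 0)
      (fun n : ℕ => (p : ℤ) ∣ (FP α β γ).eval (n : ℤ) + 0) (by
      intro n
      rw [FP_eval, ← ZMod.intCast_zmod_eq_zero_iff_dvd]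
      push_cast
      rw [add_zero]),
    card_range_zmod1 p (fun x : ZMod p => x ^ 2 + (4 * α * γ - β ^ 2) = 0)
      (fun n : ℕ => (p : ℤ) ∣ (QF (4 * α * γ - β ^ 2)).eval (n : ℤ) + 0) (by
      intro n
      rw [QF_eval, ← ZMod.intCast_zmod_eq_zero_iff_dvd]
      push_cast
      rw [add_zero])]
  apply card_bij' (i := fun (x : ZMod p) _ => 2 * α * x + β)
    (j := fun (x : ZMod p) _ => (x - β) / (2 * α))
  · intro x hx
    rw [mem_filter] at hx ⊢
    refine ⟨mem_univ _, ?_⟩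
    linear_combination 4 * α * hx.2
  · intro x hx
    rw [mem_filter] at hx ⊢
    refine ⟨mem_univ _, ?_⟩
    have h3 := hx.2
    have h4 : (4 * α : ZMod p) ≠ 0 := by
      have : (4 * α : ZMod p) = 2 * (2 * α) := by ring
      rw [this]
      exact mul_ne_zero h2 h2α
    apply mul_left_cancel₀ h4
    rw [mul_zero, ← h3]
    field_simp
    ring
  · intro x _
    field_simp
    ring
  · intro x _
    field_simp
    ring

/-- the count in a short interval -/
theorem cnt_int (F : ℤ[X]) (q X H : ℕ) (hq : 0 < q) :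
    |(((Ioc X (X + H)).filter (fun n : ℕ => (q : ℤ) ∣ F.eval (n : ℤ))).card : ℝ) -
      H * (ro F 0 q / q)| ≤ 2 * (ro F 0 q + 1) := by
  have h1 := cnt_le F 0 q X hq
  have h2 := cnt_le F 0 q (X + H) hq
  have h3 : ((cnt F 0 q (X + H) : ℕ) : ℝ) = cnt F 0 q X +
      ((Ioc X (X + H)).filter (fun n : ℕ => (q : ℤ) ∣ F.eval (n : ℤ))).card := by
    unfold cnt
    simp only [add_zero]
    rw [← Nat.cast_add, ← card_union_of_disjoint]
    · congr 2
      ext n
      simp only [mem_filter, mem_Icc, mem_union, mem_Ioc]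
      constructor
      · rintro ⟨⟨h3, h4⟩, h5⟩
        rcases le_or_gt n X with h6 | h6
        · exact Or.inl ⟨⟨h3, h6⟩, h5⟩
        · exact Or.inr ⟨⟨h6, h4⟩, h5⟩
      · rintro (⟨⟨h3, h4⟩, h5⟩ | ⟨⟨h3, h4⟩, h5⟩)
        · exact ⟨⟨h3, by omega⟩, h5⟩
        · exact ⟨⟨by omega, h4⟩, h5⟩
    · rw [disjoint_left]
      intro n hn hn'
      rw [mem_filter, mem_Icc] at hn
      rw [mem_filter, mem_Ioc] at hn'
      omega
  unfold rr at h1 h2
  rw [h3] at h2
  push_cast at h2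
  have h4 : (((Ioc X (X + H)).filter (fun n : ℕ => (q : ℤ) ∣ F.eval (n : ℤ))).card : ℝ) -
      H * (ro F 0 q / q) = ((cnt F 0 q X : ℝ) +
      ((Ioc X (X + H)).filter (fun n : ℕ => (q : ℤ) ∣ F.eval (n : ℤ))).card -
        (X + H) / q * ro F 0 q) - ((cnt F 0 q X : ℝ) - X / q * ro F 0 q) := by ring
  rw [h4]
  refine (abs_sub _ _).trans ?_
  linarith

theorem dvd_prod_iff (T : Finset ℕ) (hT : ∀ p ∈ T, p.Prime) (z : ℤ) :
    (((∏ p ∈ T, p : ℕ) : ℤ) ∣ z) ↔ ∀ p ∈ T, (p : ℤ) ∣ z := by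
  rw [Int.natCast_dvd]
  constructor
  · intro h p hp
    rw [Int.natCast_dvd]
    exact (dvd_prod_of_mem _ hp).trans h
  · intro h
    apply Finset.prod_primes_dvd
    · intro p hp
      exact (hT p hp).prime
    · intro p hp
      exact Int.natCast_dvd.1 (h p hp)

theorem mertens_QF (a : ℤ) (ha : ¬ IsSquare (-a)) : ∃ C : ℝ, 0 ≤ C ∧ ∀ w : ℝ, 3 ≤ w →
    |Sg (fun p => ro (QF a) 0 p) w - Real.log (Real.log w)| ≤ C := by
  obtain ⟨C, hC0, hC⟩ := Pool.Agent.H474R2.GE.mertens_rho (QF a) (QF_irred a ha) (by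
    have hd : (QF a).natDegree = 2 := by
      unfold QF
      exact Polynomial.natDegree_X_pow_add_C
    omega)
  refine ⟨C, hC0, fun w hw => ?_⟩
  have h1 := hC w hw
  have h2 : (Pool.Agent.H474R2.PG.rho (QF a)) = fun p => ro (QF a) 0 p := by
    ext p
    exact Pool.Agent.H578.Gen.rho_ro a p
  rw [h2] at h1
  exact h1

end Pool.Agent.H543.PF
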